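import Pool.Agent.Helper33.IR.Goals

/-!
# Project IR, packet SHIFT
-/

set_option autoImplicit false

namespace Pool.Agent.Helper59.IR

open Pool.Agent.Helper33.IR

theorem summable_digits (G C : ℝ) (hG : 2 ≤ G) (u : ℕ → ℝ) (hu : ∀ b, |u b| ≤ C) :
    Summable fun b => u b / G ^ b := by
  have h0 : 0 < G := by linarith
  have hg : Summable fun b : ℕ => C * (1 / G) ^ b :=
    (summable_geometric_of_lt_one (by positivity) (by rw [div_lt_one h0]; linarith)).mul_left C
  refine Summable.of_norm_bounded hg fun b => ?_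
  rw [Real.norm_eq_abs, abs_div, abs_of_pos (pow_pos h0 b), one_div, inv_pow, ← div_eq_mul_inv]
  exact div_le_div_of_nonneg_right (hu b) (pow_pos h0 b).le

theorem gSHIFT : G_SHIFT := by
  intro g u C hg hu q T
  have hG : (2 : ℝ) ≤ g := by exact_mod_cast hg
  set G : ℝ := (g : ℝ) with hGdef
  have h0 : 0 < G := by linarith
  have hC : 0 ≤ C := (abs_nonneg _).trans (hu 0)
  have hf := summable_digits G C hG u hu
  have hf2 := summable_digits G C hG (fun b => u (b + q)) (fun b => hu _)
  set d : ℕ → ℝ := fun b => (u (b + q) - u b) / G ^ b with hd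
  have hd2 : ∀ b, |u (b + q) - u b| ≤ 2 * C := by
    intro b
    have h1 := abs_sub (u (b + q)) (u b)
    have h2 := hu (b + q)
    have h3 := hu b
    linarith
  have hds : Summable d := summable_digits G (2 * C) hG (fun b => u (b + q) - u b) hd2
  have e1 : G ^ q * ∑' b, u b / G ^ b =
      ∑ b ∈ Finset.range q, u b * G ^ (q - b) + ∑' b, u (b + q) / G ^ b := by
    rw [← hf.sum_add_tsum_nat_add q, mul_add, Finset.mul_sum, ← tsum_mul_left]
    congr 1
    · refine Finset.sum_congr rfl fun b hb => ?_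
      have hb' : b < q := Finset.mem_range.1 hb
      have : G ^ q = G ^ (q - b) * G ^ b := by
        rw [← pow_add]
        congr 1
        omega
      rw [this]
      field_simp
    · congr 1
      funext b
      rw [pow_add]
      field_simp
  have e2 : (G ^ q - 1) * (∑' b, u b / G ^ b) - ∑ b ∈ Finset.range q, u b * G ^ (q - b) =
      ∑' b, d b := by
    have e6 : ∑' b, d b = ∑' b, u (b + q) / G ^ b - ∑' b, u b / G ^ b := by
      rw [← hf2.tsum_sub hf]
      congr 1
      funext b
      rw [hd]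
      exact sub_div _ _ _
    rw [sub_mul, one_mul, e1, e6]
    ring
  have e3 : ∑' b, d b - ∑ b ∈ Finset.range (T + 1), d b = ∑' b, d (b + (T + 1)) := by
    rw [← hds.sum_add_tsum_nat_add (T + 1)]
    ring
  rw [e2, e3]
  have hs : HasSum (fun b : ℕ => 2 * C / G ^ (T + 1) * (1 / G) ^ b)
      (2 * C / G ^ (T + 1) * (1 - 1 / G)⁻¹) :=
    (hasSum_geometric_of_lt_one (by positivity) (by rw [div_lt_one h0]; linarith)).mul_left _
  have h4 : ‖∑' b, d (b + (T + 1))‖ ≤ 2 * C / G ^ (T + 1) * (1 - 1 / G)⁻¹ := by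
    refine tsum_of_norm_bounded hs fun b => ?_
    rw [hd, Real.norm_eq_abs, abs_div, abs_of_pos (pow_pos h0 _)]
    have e5 : 2 * C / G ^ (T + 1) * (1 / G) ^ b = 2 * C / G ^ (b + (T + 1)) := by
      rw [one_div, inv_pow, ← div_eq_mul_inv, div_div, ← pow_add, Nat.add_comm (T + 1) b]
    rw [e5]
    exact div_le_div_of_nonneg_right (hd2 _) (pow_pos h0 _).le
  rw [Real.norm_eq_abs] at h4
  refine h4.trans ?_
  have h5 : 2 * C / G ^ (T + 1) * (1 - 1 / G)⁻¹ = 2 * C / G ^ T * (1 / (G - 1)) := by
    have h6 : G - 1 ≠ 0 := by linarith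
    have h7 : 1 - 1 / G = (G - 1) / G := by field_simp
    rw [h7, pow_succ, inv_div]
    field_simp
  rw [h5]
  have h8 : 1 / (G - 1) ≤ 1 := by
    rw [div_le_one (by linarith)]
    linarith
  have h9 : 0 ≤ 2 * C / G ^ T := by positivity
  nlinarith

end Pool.Agent.Helper59.IR
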